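import Pool.Agent.H56.QC.Final
import Pool.Agent.H12.QC.SymPot

/-!
# Sharp `L^p` bounds for quasiconformal gradient maps of the ball

Q1 holds, in every dimension, for all quasiconformal maps whose differential is symmetric almost
everywhere, that is for all quasiconformal gradient maps.
-/

namespace Pool.Agent.Results.MP_1fd04d_an.GradientMaps

open MeasureTheory Metric Pool.Agent.H56.QC
open scoped ENNReal

/-- Let `n ≥ 2`, `K > 1`, let `f` be a `K`-quasiconformal map of the unit ball onto itself, equal to
the identity on the unit sphere, whose weak differential `G` is symmetric almost everywhere, and let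
`n ≤ p ≤ n K / (K - 1)`. Then the integral of `(n - p + p / K(x)) ‖G x‖ ^ p` over the ball is at
most `n` times the volume of the ball. If `p < n K / (K - 1)`, then the integral of `‖G x‖ ^ p` is
at most `n K / (n K - p (K - 1))` times the volume of the ball. -/
theorem result (n : ℕ) (hn : 2 ≤ n) (K : ℝ) (hK : 1 < K) (f : E n → E n)
    (G : E n → E n →L[ℝ] E n) (hf : QCMap K f G)
    (hG : ∀ᵐ x ∂(volume.restrict (ball (0 : E n) 1)), Sym (G x))
    (p : ℝ) (hp : n ≤ p) (hp' : p ≤ n * K / (K - 1)) :
    ∫⁻ x in ball (0 : E n) 1, ENNReal.ofReal ((n - p + p / Kx (G x)) * ‖G x‖ ^ p) ≤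
        n * volume (ball (0 : E n) 1) ∧
      (p < n * K / (K - 1) → ∫⁻ x in ball (0 : E n) 1, ENNReal.ofReal (‖G x‖ ^ p) ≤
        ENNReal.ofReal (n * K / (n * K - p * (K - 1))) * volume (ball (0 : E n) 1)) := by
  have hpot := potential_of_sym f (hf.cont.mono ball_subset_closedBall) G hf.weak hG
  exact ⟨gradient_maps hn K hK f G hf hpot p hp hp',
    fun h => gradient_maps_Lp hn K hK f G hf hpot p hp h⟩

end Pool.Agent.Results.MP_1fd04d_an.GradientMaps
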